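import Pool.Agent.helper7.CS.SpecA

/-!
# Project cs:, row LVB: basic facts of levels (helper74)
-/

set_option autoImplicit false

open Complex Metric Set Filter Topology MeasureTheory
open Pool.Agent.helper98.ILF
open HY (UD T S hd UN RM)
open PM (DD rm cx pd cr hdf)

noncomputable section

namespace CSF

theorem LVB_add (Y : Sy) (i j : ℕ) (z : ℂ) : it Y (i + j) z = it Y j (it Y i z) := by
  unfold it
  rw [add_comm, Function.iterate_add_apply]

theorem LVB_succ (Y : Sy) (j : ℕ) (z : ℂ) : it Y (j + 1) z = Y.f (it Y j z) := by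
  unfold it
  rw [Function.iterate_succ_apply']

theorem LVB_diff {Y : Sy} (h : Differentiable ℂ Y.f) : ∀ k : ℕ, Differentiable ℂ (it Y k)
  | 0 => by
      have : it Y 0 = fun z => z := by
        funext z
        simp [it]
      rw [this]
      exact differentiable_id
  | k + 1 => by
      have : it Y (k + 1) = fun z => Y.f (it Y k z) := by
        funext z
        exact LVB_succ Y k z
      rw [this]
      exact h.comp (LVB_diff h k)

theorem LVB_inv {Y : Sy} {V : Set ℂ} (h : ∀ z : ℂ, Y.f z ∈ V → z ∈ V) : ∀ (j : ℕ) (z : ℂ), it Y j z ∈ V → z ∈ V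
  | 0 => fun z hz => hz
  | j + 1 => fun z hz => by
      rw [LVB_succ] at hz
      exact LVB_inv h j z (h _ hz)

/-- `LVB_stmt`. -/
theorem LVB (hTIN : PM.TIN_stmt) : LVB_stmt := by
  intro Y δ ε₀ hY
  have hd := LVB_diff hY.dif
  refine ⟨hd, LVB_add Y, LVB_succ Y, ?_, ?_⟩
  · intro p t hS i
    induction i with
    | zero =>
      intro _
      have : it Y 0 = fun z => z := by
        funext z
        simp [it]
      rw [this, deriv_id'']
      exact one_ne_zero
    | succ i ih =>
      intro hi
      have h1 := ih (by omega)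
      have h2 : it Y (i + 1) = fun z => Y.f (it Y i z) := by
        funext z
        exact LVB_succ Y i z
      have h3 : deriv (it Y (i + 1)) p = deriv Y.f (it Y i p) * deriv (it Y i) p := by
        rw [h2]
        exact deriv_comp (h₂ := Y.f) (h := it Y i) p (hY.dif _) (hd i p)
      rw [h3]
      refine mul_ne_zero (fun h0 => ?_) h1
      have h4 := hY.cri _ h0
      rw [← LVB_succ] at h4
      exact hS (i + 1) (by omega) hi h4
  intro V hV
  have hPP : ∀ i j : ℕ, PB Y (PB Y V i) j = PB Y V (i + j) := by
    intro i j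
    ext z
    show it Y i (it Y j z) ∈ V ↔ it Y (i + j) z ∈ V
    rw [add_comm i j, LVB_add]
  have hmono : ∀ i j : ℕ, i ≤ j → PB Y V j ⊆ PB Y V i := by
    intro i j hij z hz
    obtain ⟨k, rfl⟩ := Nat.exists_eq_add_of_le hij
    have h1 : it Y (i + k) z ∈ V := hz
    rw [LVB_add] at h1
    exact LVB_inv hV.inv k _ h1
  have h0 : PB Y V 0 = V := by
    ext z
    show it Y 0 z ∈ V ↔ z ∈ V
    rfl
  have horb : ∀ s ∈ Y.S, ∀ i j : ℕ, it Y i s ∈ PB Y V j := by
    intro s hs i j
    show it Y j (it Y i s) ∈ V
    rw [← LVB_add]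
    exact hV.orb s hs (i + j)
  have hsub : ∀ j, PB Y V j ⊆ V := by
    intro j
    have := hmono 0 j (Nat.zero_le j)
    rwa [h0] at this
  refine ⟨h0, hPP, hmono, ?_, ?_, horb, ?_, ?_⟩
  · intro j
    refine ⟨fun i => ?_, fun z hz => ?_, fun s hs i => horb s hs i j⟩
    · rw [hPP]
      exact hV.dd (j + i)
    · have h1 : z ∈ PB Y V (j + 1) := by
        show it Y (j + 1) z ∈ V
        rw [add_comm, LVB_add]
        have h2 : it Y 1 z = Y.f z := by
          rw [LVB_succ Y 0 z]
          rfl
        rw [h2]
        exact hz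
      exact hmono j (j + 1) (Nat.le_succ j) h1
  · intro i j z hz
    show it Y j (it Y i z) ∈ V
    rw [← LVB_add]
    exact hz
  · intro p hp i j
    constructor
    · intro k
      rw [← LVB_add]
      exact hp (i + k)
    · show it Y j (it Y i p) ∈ V
      rw [← LVB_add]
      exact hp (i + j)
  · intro M j a ha hF s hs
    have h1 := hF s hs
    have hDj : DD (PB Y V j) := hV.dd j
    have hD0 : DD V := by
      have := hV.dd 0
      rwa [h0] at this
    have h2 := (hTIN (PB Y V j) V hDj hD0 (hsub j) a ha).2 s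
    linarith

end CSF
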